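import Mathlib
import Pool.Agent.H14.ValDelta2

set_option autoImplicit false

namespace Pool.Agent.Results.MP_943595_co.HermPlusOmega

open Matrix Pool.Agent.H14.ValDelta

/-- Hermitian plus any scalar multiple of a rank-one Hermitian matrix: the valuations of the
principal minors form a valuated Delta-matroid. -/
theorem result (K : Type) [Field K] [StarRing K] (v : AddValuation K (WithTop ℝ))
    (hv : ∀ a, v (star a) = v a) (w : K) (n : ℕ) (B C : Matrix (Fin n) (Fin n) K)
    (hB : Bᴴ = B) (hC : Cᴴ = C) (hr : C.rank = 1) :
    IsValDelta (fun S => v (pminor (B + w • C) S)) := by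
  obtain ⟨a, b, hab⟩ := rank_one_eq C hr
  refine valDelta v hv (B + w • C) 1 (Or.inl rfl) ((star w - w) • a) b ?_
  rw [Matrix.conjTranspose_add, Matrix.conjTranspose_smul, hB, hC, Matrix.smul_vecMulVec, ← hab]
  module

end Pool.Agent.Results.MP_943595_co.HermPlusOmega
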